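import Pool.Agent.ANO2.Dyn.DeckC

/-!
# PACKAGE ANO-HYP. One step hyperbolicity

`hyp`: let `P`, `C`, `μ` be the data of `IsAnosovLift S F`. Let `c₁`, `c₂` be the constants of
`le_tnorm`, `tnorm_le` for `K ∪ K'`, and `B` a bound for `‖P p‖`, `‖1 - P p‖` on `K ∪ K'`
(continuity). Choose `N` with `c₁ c₂ C μ ^ N B < 1/8`, `N > 0`.
(0) By induction on `n`: `loc (F ^ n)` and `loc ((F ^ n).symm)` are `C¹` on `dom r k`
(`contDiffOn_loc_comp`, `F ^ (n+1) = F ∘ F ^ n` as functions, `loc_id` for `n = 0`,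
`ContDiffOn.congr`), and `P ((F ^ n) p) ∘L tmap (F ^ n) p = tmap (F ^ n) p ∘L P p` (`tmap_comp`).
(1) For a deck transformation `h` and `G = h ∘ F ^ N`, `G' = (F ^ N).symm ∘ h'` with the inverse
`h'` of `h` (`IsDeck.inv`): `P (G p) ∘L tmap G p = tmap G p ∘L P p` (`tmap_comp`).
(2) If `p ∈ K`, `G p ∈ K'`, `v` any vector: `w = v - P p v`, `P p w = 0`, so `‖tmap G p w‖ ≤ c₁
tnorm (G p) (tmap G p w) = c₁ tnorm (F^N p) (tmap (F^N) p w)` (`IsDeck.tnorm`) `≤ c₁ C μ ^ N tnorm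
p w ≤ c₁ c₂ C μ ^ N B ‖v‖`; and `tmap G p v - P (G p) (tmap G p v) = tmap G p w`.
(3) `q = G p`, `w = P q v`, `P q w = w`: with `q' = h' q = F^N p`, `w' = tmap h' q w`, `P q' w' =
w'` (invariance under the deck transformation `h'`), so `tnorm p (tmap (F^N).symm q' w') ≤ C μ ^ N
tnorm q' w' = C μ ^ N tnorm q w`; and `P p (tmap G' q v) = tmap G' q (P q v)` (the commutation
relation for `G'`: from the one for `G` at `p`, as `tmap G' q` is the inverse of `tmap G p`,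
`tmap_comp`, `tmap_id`).
-/

set_option autoImplicit false

noncomputable section

namespace Pool.Agent.ANO2.Dyn

open Pool.Agent.ANO Pool.Agent.ANO.Dyn

open Metric
open scoped UpperHalfPlane

variable {r k : ℕ} {S : Fin r → ClosedSurface}

/-- The one step estimates for `G`, with the inverse `G'`, at the point `p`. -/
structure Step (P : X r k → (E r k →L[ℝ] E r k)) (G G' : X r k → X r k) (p : X r k) : Prop where
  comm : P (G p) ∘L tmap G p = tmap G p ∘L P p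
  s : ‖tmap G p - P (G p) ∘L tmap G p‖ < 1 / 8
  u : ‖P p ∘L tmap G' (G p)‖ < 1 / 8

private theorem hyp_coe_succ (F : X r k ≃ₜ X r k) (n : ℕ) :
    (⇑(F ^ (n + 1) : X r k ≃ₜ X r k) : X r k → X r k) = ⇑F ∘ ⇑(F ^ n : X r k ≃ₜ X r k) := by
  rw [pow_succ']
  rfl

private theorem hyp_symm_succ (F : X r k ≃ₜ X r k) (n : ℕ) :
    (⇑(F ^ (n + 1) : X r k ≃ₜ X r k).symm : X r k → X r k) =
      ⇑(F ^ n : X r k ≃ₜ X r k).symm ∘ ⇑F.symm := by
  rw [pow_succ']
  rfl

theorem contDiffOn_pow {F : X r k ≃ₜ X r k} (h : IsAnosovLift S F) (n : ℕ) :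
    ContDiffOn ℝ 1 (loc (F ^ n : X r k ≃ₜ X r k)) (dom r k) ∧
      ContDiffOn ℝ 1 (loc (F ^ n : X r k ≃ₜ X r k).symm) (dom r k) := by
  induction n with
  | zero =>
    constructor
    · exact contDiffOn_id.congr (fun x hx => loc_id hx)
    · exact contDiffOn_id.congr (fun x hx => loc_id hx)
  | succ n ih =>
    constructor
    · rw [hyp_coe_succ]
      exact contDiffOn_loc_comp h.1 ih.1
    · rw [hyp_symm_succ]
      exact contDiffOn_loc_comp ih.2 h.2.1

private theorem hyp_comm_pow {F : X r k ≃ₜ X r k} (hF : IsAnosovLift S F)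
    {P : X r k → (E r k →L[ℝ] E r k)}
    (hP : ∀ p, P (F p) ∘L tmap F p = tmap F p ∘L P p) (n : ℕ) (p : X r k) :
    P ((F ^ n) p) ∘L tmap (F ^ n : X r k ≃ₜ X r k) p =
      tmap (F ^ n : X r k ≃ₜ X r k) p ∘L P p := by
  induction n with
  | zero =>
    have h0 : (⇑(F ^ 0 : X r k ≃ₜ X r k) : X r k → X r k) = id := rfl
    rw [h0, tmap_id]
    rfl
  | succ n ih =>
    rw [hyp_coe_succ, tmap_comp hF.1 (contDiffOn_pow hF n).1, Function.comp_apply,
      ← ContinuousLinearMap.comp_assoc, hP, ContinuousLinearMap.comp_assoc, ih,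
      ContinuousLinearMap.comp_assoc]

private theorem hyp_comm_symm {F : X r k ≃ₜ X r k} (hF : IsAnosovLift S F)
    {P : X r k → (E r k →L[ℝ] E r k)}
    (hP : ∀ p, P (F p) ∘L tmap F p = tmap F p ∘L P p) (n : ℕ) (q : X r k) (v : E r k) :
    P ((F ^ n).symm q) (tmap (F ^ n : X r k ≃ₜ X r k).symm q v) =
      tmap (F ^ n : X r k ≃ₜ X r k).symm q (P q v) := by
  set T : X r k ≃ₜ X r k := F ^ n with hT
  obtain ⟨p, rfl⟩ := T.surjective q
  have h1 := hyp_comm_pow hF hP n p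
  rw [← hT] at h1
  have hc := contDiffOn_pow hF n
  rw [← hT] at hc
  have h2 : ∀ w, tmap T p (tmap T.symm (T p) w) = w := by
    intro w
    have := tmap_comp hc.1 hc.2 (T p)
    have hid : (⇑T ∘ ⇑T.symm : X r k → X r k) = id := by
      funext x
      simp
    rw [hid, tmap_id, T.symm_apply_apply] at this
    have h3 := congrArg (fun L : E r k →L[ℝ] E r k => L w) this
    exact h3.symm
  have h4 : ∀ w, tmap T.symm (T p) (tmap T p w) = w := by
    intro w
    have := tmap_comp hc.2 hc.1 p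
    have hid : (⇑T.symm ∘ ⇑T : X r k → X r k) = id := by
      funext x
      simp
    rw [hid, tmap_id] at this
    have h3 := congrArg (fun L : E r k →L[ℝ] E r k => L w) this
    exact h3.symm
  rw [T.symm_apply_apply]
  have h5 := congrArg (fun L : E r k →L[ℝ] E r k => L (tmap T.symm (T p) v)) h1
  simp only [ContinuousLinearMap.comp_apply] at h5
  rw [h2] at h5
  rw [h5, h4]

theorem hyp {F : X r k ≃ₜ X r k} (hF : IsAnosovLift S F) {K K' : Set (X r k)} (hK : IsCompact K)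
    (hK' : IsCompact K') : ∃ P : X r k → (E r k →L[ℝ] E r k), Continuous P ∧
      (∀ p, P p ∘L P p = P p) ∧ ∃ N : ℕ, 0 < N ∧ ∀ h h' : X r k → X r k, IsDeck S k h →
        IsDeck S k h' → (∀ p, h' (h p) = p) → (∀ p, h (h' p) = p) → ∀ p ∈ K,
          h ((F ^ N) p) ∈ K' → Step P (h ∘ ⇑(F ^ N)) (⇑(F ^ N).symm ∘ h') p := by
  have hF0 := hF
  obtain ⟨hF1, hF2, -, -, P, hPc, hPP, hPd, hPF, C, μ, hC, hμ0, hμ1, hest⟩ := hF
  obtain ⟨c1, hc1, hc1'⟩ := le_tnorm (hK.union hK')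
  obtain ⟨c2, hc2, hc2'⟩ := tnorm_le (hK.union hK')
  obtain ⟨B0, hB0⟩ := (hK.union hK').exists_bound_of_continuousOn hPc.continuousOn
  set B : ℝ := 1 + |B0| with hBdef
  have hB1 : 1 ≤ B := by
    have := abs_nonneg B0
    linarith
  have hBpos : 0 < B := by linarith
  have hPB : ∀ p ∈ K ∪ K', ∀ v, ‖P p v‖ ≤ |B0| * ‖v‖ := fun p hp v =>
    ((P p).le_opNorm v).trans
      (mul_le_mul_of_nonneg_right ((hB0 p hp).trans (le_abs_self _)) (norm_nonneg _))
  have hM : 0 < c1 * c2 * C * B := by positivity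
  obtain ⟨n, hn⟩ := exists_pow_lt_of_lt_one (show (0 : ℝ) < 1 / 8 / (c1 * c2 * C * B) by
    positivity) hμ1
  refine ⟨P, hPc, hPP, n + 1, Nat.succ_pos n, ?_⟩
  set N : ℕ := n + 1 with hNdef
  have hμN : μ ^ N ≤ μ ^ n := pow_le_pow_of_le_one hμ0.le hμ1.le (Nat.le_succ n)
  have hsmall : c1 * (C * μ ^ N * (c2 * B)) < 1 / 8 := by
    have h1 : c1 * c2 * C * B * μ ^ N < 1 / 8 := by
      have h2 : c1 * c2 * C * B * μ ^ N ≤ c1 * c2 * C * B * μ ^ n :=
        mul_le_mul_of_nonneg_left hμN hM.le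
      have h3 : c1 * c2 * C * B * μ ^ n < 1 / 8 := by
        rw [lt_div_iff₀ hM] at hn
        linarith
      linarith
    calc c1 * (C * μ ^ N * (c2 * B)) = c1 * c2 * C * B * μ ^ N := by ring
      _ < 1 / 8 := h1
  have hsmall0 : 0 ≤ c1 * (C * μ ^ N * (c2 * B)) := by positivity
  have hCμ : 0 ≤ C * μ ^ N := by positivity
  intro h h' hh hh' hh1 hh2 p hp hpK'
  have hcT := contDiffOn_pow hF0 N
  have hpU : p ∈ K ∪ K' := Or.inl hp
  have hqU : h ((F ^ N) p) ∈ K ∪ K' := Or.inr hpK'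
  have hcomm : P ((h ∘ ⇑(F ^ N)) p) ∘L tmap (h ∘ ⇑(F ^ N)) p =
      tmap (h ∘ ⇑(F ^ N)) p ∘L P p := by
    rw [tmap_comp (IsDeck.contDiffOn hh) hcT.1, Function.comp_apply,
      ← ContinuousLinearMap.comp_assoc, hPd h hh, ContinuousLinearMap.comp_assoc,
      hyp_comm_pow hF0 hPF, ContinuousLinearMap.comp_assoc]
  refine ⟨hcomm, ?_, ?_⟩
  · refine lt_of_le_of_lt (ContinuousLinearMap.opNorm_le_bound _ hsmall0 fun v => ?_) hsmall
    set w : E r k := v - P p v with hw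
    have hPw : P p w = 0 := by
      have h1 := congrArg (fun L : E r k →L[ℝ] E r k => L v) (hPP p)
      simp only [ContinuousLinearMap.comp_apply] at h1
      rw [hw, map_sub, h1, sub_self]
    have h1 : (tmap (h ∘ ⇑(F ^ N)) p - P ((h ∘ ⇑(F ^ N)) p) ∘L tmap (h ∘ ⇑(F ^ N)) p) v =
        tmap (h ∘ ⇑(F ^ N)) p w := by
      rw [hcomm, sub_apply, ContinuousLinearMap.comp_apply, hw, map_sub]
    rw [h1]
    have h2 : tmap (h ∘ ⇑(F ^ N)) p w = tmap h ((F ^ N) p) (tmap (F ^ N : X r k ≃ₜ X r k) p w) := by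
      rw [tmap_comp (IsDeck.contDiffOn hh) hcT.1]
      rfl
    have h3 : ‖w‖ ≤ B * ‖v‖ := by
      have h4 : ‖w‖ ≤ ‖v‖ + ‖P p v‖ := norm_sub_le _ _
      have h5 := hPB p hpU v
      rw [hBdef]
      linarith
    calc ‖tmap (h ∘ ⇑(F ^ N)) p w‖
        ≤ c1 * tnorm (h ((F ^ N) p)) (tmap (h ∘ ⇑(F ^ N)) p w) := hc1' _ hqU _
      _ = c1 * tnorm ((F ^ N) p) (tmap (F ^ N : X r k ≃ₜ X r k) p w) := by
          rw [h2, IsDeck.tnorm hh]
      _ ≤ c1 * (C * μ ^ N * tnorm p w) :=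
          mul_le_mul_of_nonneg_left ((hest N p w).1 hPw) hc1.le
      _ ≤ c1 * (C * μ ^ N * (c2 * (B * ‖v‖))) := by
          refine mul_le_mul_of_nonneg_left (mul_le_mul_of_nonneg_left ?_ hCμ) hc1.le
          exact (hc2' p hpU w).trans (mul_le_mul_of_nonneg_left h3 hc2.le)
      _ = c1 * (C * μ ^ N * (c2 * B)) * ‖v‖ := by ring
  · refine lt_of_le_of_lt (ContinuousLinearMap.opNorm_le_bound _ hsmall0 fun v => ?_) hsmall
    have hGp : (h ∘ ⇑(F ^ N)) p = h ((F ^ N) p) := rfl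
    rw [hGp]
    set q : X r k := h ((F ^ N) p) with hq
    have hq' : h' q = (F ^ N) p := hh1 _
    have hqp : (F ^ N).symm (h' q) = p := by
      rw [hq', Homeomorph.symm_apply_apply]
    set w : E r k := P q v with hw
    have hPw : P q w = w := by
      have h1 := congrArg (fun L : E r k →L[ℝ] E r k => L v) (hPP q)
      simp only [ContinuousLinearMap.comp_apply] at h1
      rw [hw, h1]
    have hd : ∀ u : E r k, P (h' q) (tmap h' q u) = tmap h' q (P q u) := fun u => by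
      have h1 := congrArg (fun L : E r k →L[ℝ] E r k => L u) (hPd h' hh' q)
      simpa only [ContinuousLinearMap.comp_apply] using h1
    have ht : ∀ u : E r k, tmap (⇑(F ^ N).symm ∘ h') q u =
        tmap (F ^ N : X r k ≃ₜ X r k).symm (h' q) (tmap h' q u) := fun u => by
      rw [tmap_comp hcT.2 (IsDeck.contDiffOn hh')]
      rfl
    have h1 : (P p ∘L tmap (⇑(F ^ N).symm ∘ h') q) v = tmap (⇑(F ^ N).symm ∘ h') q w := by
      rw [ContinuousLinearMap.comp_apply, ht, ht, hw, ← hd]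
      have h2 := hyp_comm_symm hF0 hPF N (h' q) (tmap h' q v)
      rw [hqp] at h2
      exact h2
    rw [h1, ht]
    have hPw' : P (h' q) (tmap h' q w) = tmap h' q w := by
      rw [hd, hPw]
    have h3 : ‖w‖ ≤ B * ‖v‖ := by
      have h5 := hPB q hqU v
      have h6 := norm_nonneg v
      rw [hBdef]
      nlinarith
    have h7 : ‖tmap (F ^ N : X r k ≃ₜ X r k).symm (h' q) (tmap h' q w)‖ ≤
        c1 * tnorm ((F ^ N).symm (h' q))
          (tmap (F ^ N : X r k ≃ₜ X r k).symm (h' q) (tmap h' q w)) := by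
      rw [hqp]
      exact hc1' p hpU _
    calc ‖tmap (F ^ N : X r k ≃ₜ X r k).symm (h' q) (tmap h' q w)‖
        ≤ c1 * tnorm ((F ^ N).symm (h' q))
          (tmap (F ^ N : X r k ≃ₜ X r k).symm (h' q) (tmap h' q w)) := h7
      _ ≤ c1 * (C * μ ^ N * tnorm (h' q) (tmap h' q w)) :=
          mul_le_mul_of_nonneg_left ((hest N (h' q) _).2 hPw') hc1.le
      _ = c1 * (C * μ ^ N * tnorm q w) := by rw [IsDeck.tnorm hh']
      _ ≤ c1 * (C * μ ^ N * (c2 * (B * ‖v‖))) := by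
          refine mul_le_mul_of_nonneg_left (mul_le_mul_of_nonneg_left ?_ hCμ) hc1.le
          exact (hc2' q hqU w).trans (mul_le_mul_of_nonneg_left h3 hc2.le)
      _ = c1 * (C * μ ^ N * (c2 * B)) * ‖v‖ := by ring

end Pool.Agent.ANO2.Dyn
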